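import Pool.Agent.helper18.HG.Spec

set_option autoImplicit false

namespace Pool.Agent.helper18.HG

open Finset

/-- The sum of the absolute values of the coefficients. -/
noncomputable def MON_b (b : Polynomial ℤ) : ℝ := ∑ j ∈ range (b.natDegree + 1), ‖((b.coeff j : ℤ) : ℂ)‖

theorem MON_b_nonneg (b : Polynomial ℤ) : 0 ≤ MON_b b := Finset.sum_nonneg fun _ _ => norm_nonneg _

theorem MON_aeval (b : Polynomial ℤ) (z : ℂ) (hz : ‖z‖ < 1) : ‖Polynomial.aeval z b‖ ≤ MON_b b := by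
  rw [Polynomial.aeval_eq_sum_range]
  refine (norm_sum_le _ _).trans (Finset.sum_le_sum fun j _ => ?_)
  rw [zsmul_eq_mul, norm_mul, norm_pow]
  have : ‖z‖ ^ j ≤ 1 := pow_le_one₀ (norm_nonneg _) hz.le
  calc ‖((b.coeff j : ℤ) : ℂ)‖ * ‖z‖ ^ j ≤ ‖((b.coeff j : ℤ) : ℂ)‖ * 1 :=
        mul_le_mul_of_nonneg_left this (norm_nonneg _)
    _ = _ := mul_one _

theorem MON (hEVA : EVA_stmt) (hEVM : EVM_stmt) : MON_stmt := by
  intro G Q hQ hn hev
  set n := Q.natDegree with hndef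
  refine ⟨1 + ∑ i ∈ range n, MON_b (Q.coeff i), fun z v hz hv => ?_⟩
  have hB : 0 ≤ ∑ i ∈ range n, MON_b (Q.coeff i) := Finset.sum_nonneg fun _ _ => MON_b_nonneg _
  have h1 := hEVA G z v Q hv
  rw [hev] at h1
  have h2 := (hEVM z).2.2 _ h1
  rw [Polynomial.sum_over_range] at h2
  swap
  · intro i
    rw [map_zero, zero_mul]
  rw [← hndef, Finset.sum_range_succ] at h2
  have h3 : Q.coeff n = 1 := hQ
  rw [h3, map_one, one_mul] at h2
  rcases le_or_gt ‖v‖ 1 with hv1 | hv1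
  · linarith
  have h4 : v ^ n = -∑ i ∈ range n, Polynomial.aeval z (Q.coeff i) * v ^ i := by
    linear_combination h2
  have h5 : ‖v‖ ^ n ≤ (∑ i ∈ range n, MON_b (Q.coeff i)) * ‖v‖ ^ (n - 1) := by
    rw [← norm_pow, h4, norm_neg, Finset.sum_mul]
    refine (norm_sum_le _ _).trans (Finset.sum_le_sum fun i hi => ?_)
    have hi' := Finset.mem_range.1 hi
    rw [norm_mul, norm_pow]
    refine mul_le_mul (MON_aeval _ z hz) ?_ (by positivity) (MON_b_nonneg _)
    exact pow_le_pow_right₀ hv1.le (by omega)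
  have h6 : ‖v‖ ^ n = ‖v‖ * ‖v‖ ^ (n - 1) := by
    rw [← pow_succ']
    congr 1
    omega
  rw [h6] at h5
  have h7 : ‖v‖ ≤ ∑ i ∈ range n, MON_b (Q.coeff i) :=
    le_of_mul_le_mul_right h5 (pow_pos (by linarith) _)
  linarith

end Pool.Agent.helper18.HG
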